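import Mathlib
import Pool.Agent.Helper99.BK.Stmts

/-! Embeddings and infinite places of a cubic field. -/

set_option autoImplicit false

namespace Pool.Helper99.BK

open NumberField InfinitePlace

theorem emb3_bij (K : Type) [Field K] [NumberField K] (h3 : Module.finrank ℚ K = 3)
    (σ : Fin 3 → (K →+* ℂ)) (hσ : Function.Injective σ) : Function.Bijective σ := by
  rw [Fintype.bijective_iff_injective_and_card]
  refine ⟨hσ, ?_⟩
  rw [Embeddings.card K ℂ, h3, Fintype.card_fin]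

theorem emb3_norm (K : Type) [Field K] [NumberField K] (h3 : Module.finrank ℚ K = 3)
    (σ : Fin 3 → (K →+* ℂ)) (hσ : Function.Injective σ) (x : 𝓞 K) :
    ∏ i, ‖σ i (x : K)‖ = |(Algebra.norm ℤ x : ℝ)| := by
  have h1 : ∏ i, ‖σ i (x : K)‖ = ∏ φ : K →+* ℂ, ‖φ (x : K)‖ :=
    Fintype.prod_bijective σ (emb3_bij K h3 σ hσ) _ _ (fun i => rfl)
  have h2 : ∏ φ : K →+* ℂ, ‖φ (x : K)‖ = ∏ φ : K →ₐ[ℚ] ℂ, ‖φ (x : K)‖ :=
    Fintype.prod_equiv (RingHom.equivRatAlgHom K ℂ) (fun f => ‖f (x : K)‖)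
      (fun φ => ‖φ (x : K)‖) fun _ => by simp [RingHom.equivRatAlgHom_apply]
  rw [h1, h2, ← norm_prod, ← Algebra.norm_eq_prod_embeddings ℚ ℂ (x : K)]
  have h4 : ((Algebra.norm ℤ x : ℤ) : ℚ) = Algebra.norm ℚ (x : K) := Algebra.coe_norm_int x
  rw [← h4, eq_ratCast, Rat.cast_intCast, Complex.norm_intCast]

theorem emb3_isReal (K : Type) [Field K] [NumberField K] (φ : K →+* ℂ)
    (h : ∀ x, (φ x).im = 0) : ComplexEmbedding.IsReal φ := by
  rw [ComplexEmbedding.isReal_iff]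
  ext x
  rw [ComplexEmbedding.conjugate_coe_eq]
  exact Complex.conj_eq_iff_im.2 (h x)

theorem st_EMB3 : ST_EMB3 := by
  classical
  intro K _ _ h3 σ hσ
  have hb := emb3_bij K h3 σ hσ
  refine ⟨fun τ => ?_, emb3_norm K h3 σ hσ, fun hre => ?_, fun h21 h0 => ?_⟩
  · obtain ⟨i, hi⟩ := hb.2 τ
    exact ⟨i, hi.symm⟩
  · have hc : nrComplexPlaces K = 0 := by
      rw [Fintype.card_eq_zero_iff]
      refine ⟨fun w => ?_⟩
      obtain ⟨w, φ, hφ, hw⟩ := w
      obtain ⟨i, hi⟩ := hb.2 φ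
      apply hφ
      rw [← hi]
      exact emb3_isReal K (σ i) (hre i)
    have h4 := card_add_two_mul_card_eq_rank (K := K)
    have h5 := card_eq_nrRealPlaces_add_nrComplexPlaces (K := K)
    rw [h3] at h4
    omega
  · have h4 := card_add_two_mul_card_eq_rank (K := K)
    have h5 := card_eq_nrRealPlaces_add_nrComplexPlaces (K := K)
    have h1 : ¬ ComplexEmbedding.IsReal (σ 1) := by
      intro hr
      rw [ComplexEmbedding.isReal_iff] at hr
      have h12 : σ 2 = σ 1 := by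
        ext x
        rw [h21 x, ← ComplexEmbedding.conjugate_coe_eq, hr]
      exact absurd (hσ h12) (by decide)
    have h6 : 0 < nrComplexPlaces K := by
      rw [Fintype.card_pos_iff]
      exact ⟨⟨mk (σ 1), σ 1, h1, rfl⟩⟩
    have h7 : 0 < nrRealPlaces K := by
      rw [Fintype.card_pos_iff]
      exact ⟨⟨mk (σ 0), σ 0, emb3_isReal K (σ 0) h0, rfl⟩⟩
    rw [h3] at h4
    omega

end Pool.Helper99.BK
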