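import Mathlib
import Pool.Agent.Helper99.BK.Stmts

/-! Translation of polynomials in two variables. -/

set_option autoImplicit false

namespace Pool.Helper99.BK

open MvPolynomial

theorem trb_eval (a b : Fin 2 → ℂ) (F : MvPolynomial (Fin 2) ℂ) :
    eval b (tr a F) = eval (a + b) F := by
  unfold tr
  induction F using MvPolynomial.induction_on with
  | C z => simp
  | add p q hp hq => simp only [map_add, hp, hq]
  | mul_X p i hp =>
    simp only [map_mul, hp, bind₁_X_right, eval_X, map_add, eval_C, Pi.add_apply]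
    ring

theorem trb_comp (a b : Fin 2 → ℂ) (F : MvPolynomial (Fin 2) ℂ) :
    tr a (tr b F) = tr (a + b) F := by
  apply MvPolynomial.funext
  intro x
  simp only [trb_eval]
  congr 1
  rw [← add_assoc, add_comm b a]

theorem trb_zero (F : MvPolynomial (Fin 2) ℂ) : tr 0 F = F := by
  apply MvPolynomial.funext
  intro x
  simp only [trb_eval, zero_add]

theorem trb_mul (a : Fin 2 → ℂ) (F G : MvPolynomial (Fin 2) ℂ) :
    tr a (F * G) = tr a F * tr a G := by
  unfold tr
  rw [map_mul]

theorem trb_deg_le (a : Fin 2 → ℂ) (F : MvPolynomial (Fin 2) ℂ) :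
    (tr a F).totalDegree ≤ F.totalDegree := by
  unfold tr
  rw [F.as_sum, map_sum]
  refine (totalDegree_finsetSum _ _).trans ?_
  apply Finset.sup_le
  intro m hm
  rw [← F.as_sum]
  have h1 : (bind₁ (fun i => (X i + C (a i) : MvPolynomial (Fin 2) ℂ))) (monomial m (coeff m F)) =
      C (coeff m F) * ∏ i, (X i + C (a i)) ^ (m i) := by
    rw [bind₁_monomial]
    congr 1
    apply Finset.prod_subset (Finset.subset_univ _)
    intro i _ hi
    rw [Finsupp.notMem_support_iff.1 hi, pow_zero]
  rw [h1]
  have h2 : (C (coeff m F) * ∏ i, (X i + C (a i) : MvPolynomial (Fin 2) ℂ) ^ (m i)).totalDegree ≤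
      ∑ i, m i := by
    refine (totalDegree_mul _ _).trans ?_
    rw [totalDegree_C, zero_add]
    refine (totalDegree_finsetProd _ _).trans ?_
    apply Finset.sum_le_sum
    intro i _
    refine (totalDegree_pow _ _).trans ?_
    have h3 : (X i + C (a i) : MvPolynomial (Fin 2) ℂ).totalDegree ≤ 1 := by
      refine (totalDegree_add _ _).trans ?_
      rw [totalDegree_X, totalDegree_C]
      simp
    calc m i * (X i + C (a i) : MvPolynomial (Fin 2) ℂ).totalDegree ≤ m i * 1 :=
          Nat.mul_le_mul_left _ h3
      _ = m i := mul_one _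
  refine h2.trans ?_
  have h4 := le_totalDegree hm
  refine le_trans (le_of_eq ?_) h4
  rw [Finsupp.sum_fintype _ _ (by intro i; rfl)]

theorem trb_deg (a : Fin 2 → ℂ) (F : MvPolynomial (Fin 2) ℂ) :
    (tr a F).totalDegree = F.totalDegree := by
  apply le_antisymm (trb_deg_le a F)
  have h := trb_deg_le (-a) (tr a F)
  rw [trb_comp, neg_add_cancel, trb_zero] at h
  exact h

/-- translation as a multiplicative equivalence -/
noncomputable def trb_equiv (a : Fin 2 → ℂ) :
    MvPolynomial (Fin 2) ℂ ≃* MvPolynomial (Fin 2) ℂ where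
  toFun := tr a
  invFun := tr (-a)
  left_inv F := by rw [trb_comp, neg_add_cancel, trb_zero]
  right_inv F := by rw [trb_comp, add_neg_cancel, trb_zero]
  map_mul' := trb_mul a

theorem trb_irr (a : Fin 2 → ℂ) (F : MvPolynomial (Fin 2) ℂ) (h : Irreducible F) :
    Irreducible (tr a F) :=
  (MulEquiv.irreducible_iff (trb_equiv a)).2 h

/-- restriction to the line `b + s a` -/
noncomputable def trb_line (a b : Fin 2 → ℂ) (F : MvPolynomial (Fin 2) ℂ) : Polynomial ℂ :=
  aeval (fun i => Polynomial.C (b i) + Polynomial.C (a i) * Polynomial.X) F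

theorem trb_line_eval (a b : Fin 2 → ℂ) (F : MvPolynomial (Fin 2) ℂ) (s : ℂ) :
    (trb_line a b F).eval s = eval (b + s • a) F := by
  unfold trb_line
  induction F using MvPolynomial.induction_on with
  | C z => simp [Polynomial.algebraMap_eq]
  | add p q hp hq => simp only [map_add, Polynomial.eval_add, hp, hq]
  | mul_X p i hp =>
    simp only [map_mul, hp, aeval_X, Polynomial.eval_mul, eval_X, Polynomial.eval_add,
      Polynomial.eval_C, Polynomial.eval_X, Pi.add_apply, Pi.smul_apply, smul_eq_mul]
    ring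

theorem trb_one (a : Fin 2 → ℂ) (F : MvPolynomial (Fin 2) ℂ) (c : ℂ) (hF : F ≠ 0)
    (h : tr a F = C c * F) : c = 1 := by
  obtain ⟨b, hb⟩ : ∃ b, eval b F ≠ 0 := by
    by_contra hcon
    push Not at hcon
    apply hF
    apply MvPolynomial.funext
    intro x
    rw [hcon x, map_zero]
  set g := trb_line a b F with hg
  have hg0 : g ≠ 0 := by
    intro h0
    apply hb
    have := trb_line_eval a b F 0
    rw [← hg, h0] at this
    simpa using this.symm
  have h1 : g.comp (Polynomial.X + Polynomial.C 1) = Polynomial.C c * g := by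
    apply Polynomial.funext
    intro s
    rw [Polynomial.eval_comp, Polynomial.eval_mul, Polynomial.eval_C, hg, trb_line_eval,
      trb_line_eval]
    have h2 := congrArg (eval (b + s • a)) h
    rw [trb_eval, map_mul, eval_C] at h2
    rw [← h2]
    have h5 : b + (Polynomial.eval s (Polynomial.X + Polynomial.C 1)) • a = a + (b + s • a) := by
      simp only [Polynomial.eval_add, Polynomial.eval_X, Polynomial.eval_C]
      rw [add_smul, one_smul]
      abel
    rw [h5]
  have h3 := congrArg Polynomial.leadingCoeff h1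
  rw [Polynomial.leadingCoeff_comp (by rw [Polynomial.natDegree_X_add_C]; exact one_ne_zero),
    Polynomial.leadingCoeff_X_add_C, one_pow, mul_one, Polynomial.leadingCoeff_mul,
    Polynomial.leadingCoeff_C] at h3
  have h4 : g.leadingCoeff ≠ 0 := Polynomial.leadingCoeff_ne_zero.2 hg0
  have h5 : (c - 1) * g.leadingCoeff = 0 := by rw [sub_mul, one_mul, ← h3, sub_self]
  rcases mul_eq_zero.1 h5 with h6 | h6
  · exact sub_eq_zero.1 h6
  · exact absurd h6 h4

theorem st_TRB : ST_TRB :=
  ⟨trb_eval, trb_comp, trb_zero, trb_mul, trb_deg, trb_irr, trb_one⟩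

end Pool.Helper99.BK
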