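import Mathlib
import Pool.Agent.Helper99.BK.Stmts
import Pool.Agent.Helper16.BK.TRB

/-! Periods of an irreducible polynomial in two variables. -/

set_option autoImplicit false

namespace Pool.Helper99.BK

open MvPolynomial

theorem trl_nat (F : MvPolynomial (Fin 2) ℂ) (v : Fin 2 → ℂ) (hv : tr v F = F) (n : ℕ)
    (x : Fin 2 → ℂ) : eval (x + (n : ℂ) • v) F = eval x F := by
  induction n with
  | zero => simp
  | succ n ih =>
    have h1 : x + ((n + 1 : ℕ) : ℂ) • v = v + (x + (n : ℂ) • v) := by
      rw [Nat.cast_succ, add_smul, one_smul]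
      abel
    rw [h1, ← trb_eval, hv, ih]

theorem trl_smul (F : MvPolynomial (Fin 2) ℂ) (v : Fin 2 → ℂ) (hv : tr v F = F) (t : ℂ)
    (x : Fin 2 → ℂ) : eval (x + t • v) F = eval x F := by
  have h1 : trb_line v x F = Polynomial.C (eval x F) := by
    apply Polynomial.eq_of_infinite_eval_eq
    apply Set.infinite_of_injective_forall_mem (f := fun n : ℕ => (n : ℂ)) Nat.cast_injective
    intro n
    rw [Set.mem_ofPred_eq, trb_line_eval, Polynomial.eval_C, trl_nat F v hv n x]
  rw [← trb_line_eval, h1, Polynomial.eval_C]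

/-- the space of periods -/
def trl_W (F : MvPolynomial (Fin 2) ℂ) : Submodule ℂ (Fin 2 → ℂ) where
  carrier := {v | tr v F = F}
  zero_mem' := trb_zero F
  add_mem' := by
    intro a b ha hb
    rw [Set.mem_ofPred_eq] at *
    rw [← trb_comp, hb, ha]
  smul_mem' := by
    intro t v hv
    rw [Set.mem_ofPred_eq] at *
    apply MvPolynomial.funext
    intro x
    rw [trb_eval, add_comm, trl_smul F v hv t x]

theorem trl_lt (F : MvPolynomial (Fin 2) ℂ) (hF : Irreducible F) : trl_W F < ⊤ := by
  rw [lt_top_iff_ne_top]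
  intro h
  have h1 : F = C (eval 0 F) := by
    apply MvPolynomial.funext
    intro x
    rw [eval_C]
    have hx : x ∈ trl_W F := by rw [h]; exact Submodule.mem_top
    have hx' : tr x F = F := hx
    have h2 := trb_eval x 0 F
    rw [hx', add_zero] at h2
    exact h2.symm
  by_cases h0 : eval 0 F = 0
  · rw [h0, map_zero] at h1
    exact hF.ne_zero h1
  · apply hF.not_isUnit
    rw [h1]
    exact (isUnit_iff_ne_zero.2 h0).map C

theorem st_TRL (_h1 : ST_TRB) : ST_TRL := by
  intro F hF
  obtain ⟨f, hf0, hf⟩ := Submodule.exists_le_ker_of_lt_top (trl_W F) (trl_lt F hF)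
  have hfx : ∀ x : Fin 2 → ℂ, f x = f (Pi.single 0 1) * x 0 + f (Pi.single 1 1) * x 1 := by
    intro x
    have hx : x = x 0 • (Pi.single 0 1 : Fin 2 → ℂ) + x 1 • (Pi.single 1 1 : Fin 2 → ℂ) := by
      ext i
      fin_cases i <;> simp
    conv_lhs => rw [hx]
    rw [map_add, map_smul, map_smul, smul_eq_mul, smul_eq_mul]
    ring
  refine ⟨![f (Pi.single 0 1), f (Pi.single 1 1)], ?_, ?_⟩
  · intro h0
    apply hf0
    ext i
    have h2 := congrFun h0 i
    fin_cases i
    · simpa using h2
    · simpa using h2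
  · intro a b hab
    have hW : a - b ∈ trl_W F := by
      obtain ⟨u, hu⟩ := hab.symm
      have hu2 : IsUnit (u : MvPolynomial (Fin 2) ℂ) := u.isUnit
      rw [MvPolynomial.isUnit_iff_eq_C_of_isReduced] at hu2
      obtain ⟨c, _, hc⟩ := hu2
      rw [hc] at hu
      have h3 : tr (a - b) F = C c * F := by
        have h4 := congrArg (tr (-b)) hu
        rw [trb_mul, trb_comp, trb_comp, neg_add_cancel, trb_zero] at h4
        rw [sub_eq_neg_add, ← h4, mul_comm]
        congr 1
        unfold tr
        rw [bind₁_C_right]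
      have h5 := trb_one (a - b) F c hF.ne_zero h3
      rw [h5, map_one, one_mul] at h3
      exact h3
    have h6 := hf hW
    rw [LinearMap.mem_ker, map_sub, hfx a, hfx b] at h6
    simp only [Matrix.cons_val_zero, Matrix.cons_val_one]
    exact sub_eq_zero.1 h6

end Pool.Helper99.BK
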